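import Pool.Agent.W770.PC.Stms

set_option autoImplicit false

open Pool.Agent.W770.PC

namespace Pool.Agent.W748.PCSum

lemma geo_le (r : ℝ) (h0 : 0 ≤ r) (h1 : r < 1) (n : ℕ) :
    ∑ i ∈ Finset.range n, r ^ i ≤ (1 - r)⁻¹ := by
  rw [← tsum_geometric_of_lt_one h0 h1]
  exact (summable_geometric_of_lt_one h0 h1).sum_le_tsum _ (fun i _ => pow_nonneg h0 i)

lemma core (p K e : ℝ) (he : 0 < e) (hp : p = 3 + 2 * e) (hK : 0 ≤ K) (u v : ℝ)
    (hu : 1 ≤ u) (hv : 1 ≤ v) :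
    (K * min (1 / u) (1 / v)) ^ (p - 2) * (K * v) ≤
      (K ^ (p - 2) * K) * (u ^ (-e) * v ^ (-e)) := by
  set w := max u v with hw
  have hwu : u ≤ w := le_max_left _ _
  have hwv : v ≤ w := le_max_right _ _
  have hw0 : 0 < w := by linarith
  have hmin : min (1 / u) (1 / v) = w⁻¹ := by
    rcases le_total u v with h | h
    · rw [hw, max_eq_right h, min_eq_right (one_div_le_one_div_of_le (by linarith) h), one_div]
    · rw [hw, max_eq_left h, min_eq_left (one_div_le_one_div_of_le (by linarith) h), one_div]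
  rw [hmin, Real.mul_rpow hK (inv_nonneg.2 hw0.le), Real.inv_rpow hw0.le,
    ← Real.rpow_neg hw0.le]
  have h1 : w ^ (-(p - 2)) * v ≤ w ^ (-e) * w ^ (-e) := by
    calc w ^ (-(p - 2)) * v ≤ w ^ (-(p - 2)) * w ^ (1 : ℝ) := by
          rw [Real.rpow_one]
          exact mul_le_mul_of_nonneg_left hwv (Real.rpow_nonneg hw0.le _)
      _ = w ^ (-e) * w ^ (-e) := by
          rw [← Real.rpow_add hw0, ← Real.rpow_add hw0]
          congr 1
          rw [hp]; ring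
  have h2 : w ^ (-e) ≤ u ^ (-e) :=
    Real.rpow_le_rpow_of_nonpos (by linarith) hwu (by linarith)
  have h3 : w ^ (-e) ≤ v ^ (-e) :=
    Real.rpow_le_rpow_of_nonpos (by linarith) hwv (by linarith)
  have h4 : w ^ (-e) * w ^ (-e) ≤ u ^ (-e) * v ^ (-e) :=
    mul_le_mul h2 h3 (Real.rpow_nonneg hw0.le _) (Real.rpow_nonneg (by linarith) _)
  calc K ^ (p - 2) * w ^ (-(p - 2)) * (K * v) = (K ^ (p - 2) * K) * (w ^ (-(p - 2)) * v) := by ring
    _ ≤ (K ^ (p - 2) * K) * (u ^ (-e) * v ^ (-e)) :=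
        mul_le_mul_of_nonneg_left (h1.trans h4) (mul_nonneg (Real.rpow_nonneg hK _) hK)

theorem sum_thm : S_sum := by
  intro p K c hp hK
  set e := (p - 3) / 2 with he
  have he0 : 0 < e := by rw [he]; linarith
  have hp' : p = 3 + 2 * e := by rw [he]; ring
  set r : ℝ := (2 : ℝ) ^ (-e / p) with hr
  have hr0 : 0 ≤ r := Real.rpow_nonneg (by norm_num) _
  have hr1 : r < 1 := by
    apply Real.rpow_lt_one_of_one_lt_of_neg (by norm_num)
    apply div_neg_of_neg_of_pos <;> linarith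
  set Q : ℝ := (K ^ (p - 2) * K) ^ (1 / p) with hQ
  have hQ0 : 0 ≤ Q := Real.rpow_nonneg (mul_nonneg (Real.rpow_nonneg hK _) hK) _
  have hpow : ∀ n : ℕ, (((2 : ℝ) ^ n) ^ (-e)) ^ (1 / p) = r ^ n := by
    intro n
    rw [← Real.rpow_mul (by positivity), ← Real.rpow_natCast, ← Real.rpow_mul (by norm_num), hr,
      ← Real.rpow_natCast, ← Real.rpow_mul (by norm_num)]
    congr 1
    ring
  have hterm : ∀ a b : ℕ,
      ((K * min (1 / 2 ^ (a + 1)) (1 / 2 ^ b)) ^ (p - 2) * (K * 2 ^ b)) ^ (1 / p) ≤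
        Q * (r ^ (a + 1) * r ^ b) := by
    intro a b
    have h := core p K e he0 hp' hK ((2 : ℝ) ^ (a + 1)) ((2 : ℝ) ^ b)
      (one_le_pow₀ (by norm_num)) (one_le_pow₀ (by norm_num))
    have h0 : 0 ≤ (K * min (1 / (2 : ℝ) ^ (a + 1)) (1 / 2 ^ b)) ^ (p - 2) * (K * 2 ^ b) := by
      positivity
    refine (Real.rpow_le_rpow h0 h (by positivity)).trans (le_of_eq ?_)
    rw [Real.mul_rpow (mul_nonneg (Real.rpow_nonneg hK _) hK) (by positivity)]
    have hs : (((2 : ℝ) ^ (a + 1)) ^ (-e) * ((2 : ℝ) ^ b) ^ (-e)) ^ (1 / p) =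
        r ^ (a + 1) * r ^ b := by
      rw [Real.mul_rpow (by positivity) (by positivity), hpow, hpow]
    rw [hs]
  refine ⟨Q * ((1 - r)⁻¹ * (1 - r)⁻¹), ?_, ?_⟩
  · have : 0 ≤ (1 - r)⁻¹ := inv_nonneg.2 (by linarith)
    positivity
  · intro A
    have hi : 0 ≤ (1 - r)⁻¹ := inv_nonneg.2 (by linarith)
    calc ∑ a ∈ Finset.range A, ∑ b ∈ Finset.range (2 * (a + 1) + c),
          ((K * min (1 / 2 ^ (a + 1)) (1 / 2 ^ b)) ^ (p - 2) * (K * 2 ^ b)) ^ (1 / p)
        ≤ ∑ a ∈ Finset.range A, ∑ b ∈ Finset.range (2 * (a + 1) + c),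
          Q * (r ^ (a + 1) * r ^ b) :=
          Finset.sum_le_sum fun a _ => Finset.sum_le_sum fun b _ => hterm a b
      _ ≤ ∑ a ∈ Finset.range A, Q * (1 - r)⁻¹ * r ^ a := by
          refine Finset.sum_le_sum fun a _ => ?_
          rw [← Finset.mul_sum, ← Finset.mul_sum]
          have h1 := geo_le r hr0 hr1 (2 * (a + 1) + c)
          have h2 : r ^ (a + 1) ≤ r ^ a := pow_le_pow_of_le_one hr0 hr1.le (Nat.le_succ a)
          calc Q * (r ^ (a + 1) * ∑ i ∈ Finset.range (2 * (a + 1) + c), r ^ i)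
              ≤ Q * (r ^ a * (1 - r)⁻¹) := by
                refine mul_le_mul_of_nonneg_left ?_ hQ0
                exact mul_le_mul h2 h1 (Finset.sum_nonneg fun i _ => pow_nonneg hr0 i)
                  (pow_nonneg hr0 _)
            _ = Q * (1 - r)⁻¹ * r ^ a := by ring
      _ = Q * (1 - r)⁻¹ * ∑ a ∈ Finset.range A, r ^ a := by rw [Finset.mul_sum]
      _ ≤ Q * (1 - r)⁻¹ * (1 - r)⁻¹ :=
          mul_le_mul_of_nonneg_left (geo_le r hr0 hr1 A) (mul_nonneg hQ0 hi)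
      _ = Q * ((1 - r)⁻¹ * (1 - r)⁻¹) := by ring

end Pool.Agent.W748.PCSum
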